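import Pool.Agent.Helper98.DISC.GoalsD

/-!
# Project DISC (MP_105b7b_pr), packet LIN
-/

open MeasureTheory Set Filter Topology
open scoped ENNReal

noncomputable section

namespace Pool.Agent.Helper98.DISC

namespace LinAux

/-- multiplication by a number of modulus one is measure preserving -/
theorem mp_mul (u : ℂ) (hu : ‖u‖ = 1) : MeasurePreserving (fun z : ℂ => u * z) := by
  have h := (rotation (⟨u, by simpa [Submonoid.unitSphere] using hu⟩ : Circle)).measurePreserving
  have h2 : (fun z : ℂ => u * z) =
      ⇑(rotation (⟨u, by simpa [Submonoid.unitSphere] using hu⟩ : Circle)) := by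
    funext z
    simp [rotation_apply]
  rw [h2]
  exact h

theorem rot_pre (ι : Type) [Fintype ι] (u : ℂ) (hu : ‖u‖ = 1) (A : Set (ι → ℂ)) :
    volume ((fun z : ι → ℂ => fun i => u * z i) ⁻¹' A) = volume A := by
  have h1 : MeasurePreserving (fun z : ι → ℂ => fun i => u * z i) :=
    volume_preserving_pi fun _ => mp_mul u hu
  have hu0 : u ≠ 0 := by
    intro h
    simp [h] at hu
  have h2 : MeasurableEmbedding (fun z : ι → ℂ => fun i => u * z i) :=
    (Homeomorph.piCongrRight fun _ : ι => Homeomorph.mulLeft₀ u hu0).measurableEmbedding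
  exact h1.measure_preimage_emb h2 A

end LinAux

theorem lin_holds : S_LIN := by
  intro ι _ c d hc A
  have hn : ‖c‖ ≠ 0 := norm_ne_zero_iff.mpr hc
  set u : ℂ := (‖c‖ : ℂ) / c with hu
  have hun : ‖u‖ = 1 := by
    rw [hu, norm_div, Complex.norm_real, norm_norm, div_self hn]
  have hcn : (‖c‖ : ℂ) ≠ 0 := by exact_mod_cast hn
  have e1 : ((fun z : ι → ℂ => fun i => c * z i + d) '' A) =
      (fun z : ι → ℂ => z + (fun _ => -d)) ⁻¹' ((fun z : ι → ℂ => (‖c‖⁻¹ : ℝ) • z) ⁻¹'
        ((fun z : ι → ℂ => fun i => u * z i) ⁻¹' A)) := by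
    ext z
    simp only [mem_image, mem_preimage]
    constructor
    · rintro ⟨y, hy, rfl⟩
      convert hy using 1
      funext i
      simp only [Pi.smul_apply, Pi.add_apply, Complex.real_smul, hu]
      push_cast
      field_simp
      ring
    · intro h
      refine ⟨_, h, ?_⟩
      funext i
      simp only [Pi.smul_apply, Pi.add_apply, Complex.real_smul, hu]
      push_cast
      field_simp
      ring
  rw [e1, measure_preimage_add_right, Measure.addHaar_preimage_smul _ (inv_ne_zero hn),
    LinAux.rot_pre ι u hun A]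
  congr 2
  have : Module.finrank ℝ (ι → ℂ) = 2 * Fintype.card ι := by
    rw [Module.finrank_pi_fintype]
    simp [Complex.finrank_real_complex, mul_comm]
  rw [this, inv_pow, inv_inv, abs_of_nonneg (by positivity)]

end Pool.Agent.Helper98.DISC
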